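import Mathlib.Analysis.InnerProductSpace.SingularValues
import Mathlib.Analysis.InnerProductSpace.Trace
import Mathlib.LinearAlgebra.Matrix.Kronecker
import Mathlib.Tactic

/-! Singular values, Ky Fan norms, and lower bounds for the trace norm. -/

open Matrix Finset
open scoped Kronecker

namespace Pool.Agent.Q161.KF

variable {n : ℕ}

/-- The `i`-th singular value (counted from `0`, in decreasing order) of a square matrix. -/
noncomputable def sv (X : Matrix (Fin n) (Fin n) ℂ) (i : ℕ) : ℝ :=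
  (Matrix.toEuclideanLin X).singularValues i

/-- The Ky Fan `k`-norm. -/
noncomputable def kyFan (k : ℕ) (X : Matrix (Fin n) (Fin n) ℂ) : ℝ := ∑ i ∈ range k, sv X i

/-- The partial trace over the first factor. -/
def Tr1 (X : Matrix (Fin n × Fin n) (Fin n × Fin n) ℂ) : Matrix (Fin n) (Fin n) ℂ :=
  Matrix.of fun i j => ∑ k, X (k, i) (k, j)

/-- `S_A = A ⊗ I + I ⊗ A`. -/
def SA (A : Matrix (Fin n) (Fin n) ℂ) : Matrix (Fin n × Fin n) (Fin n × Fin n) ℂ :=
  A ⊗ₖ (1 : Matrix (Fin n) (Fin n) ℂ) + (1 : Matrix (Fin n) (Fin n) ℂ) ⊗ₖ A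

/-- `D_B = B ⊗ I - I ⊗ B`. -/
def DB (B : Matrix (Fin n) (Fin n) ℂ) : Matrix (Fin n × Fin n) (Fin n × Fin n) ℂ :=
  B ⊗ₖ (1 : Matrix (Fin n) (Fin n) ℂ) - (1 : Matrix (Fin n) (Fin n) ℂ) ⊗ₖ B

/-- `L(A, B) = Tr₁ (S_A D_B)`. -/
def LL (A B : Matrix (Fin n) (Fin n) ℂ) : Matrix (Fin n) (Fin n) ℂ := Tr1 (SA A * DB B)

/-- `R(B) = Tr₁ (D_B)`. -/
def RR (B : Matrix (Fin n) (Fin n) ℂ) : Matrix (Fin n) (Fin n) ℂ := Tr1 (DB B)

lemma Tr1_kron (X Y : Matrix (Fin n) (Fin n) ℂ) : Tr1 (X ⊗ₖ Y) = X.trace • Y := by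
  ext i j
  simp [Tr1, Matrix.trace, Finset.sum_mul]

lemma Tr1_add (X Y : Matrix (Fin n × Fin n) (Fin n × Fin n) ℂ) : Tr1 (X + Y) = Tr1 X + Tr1 Y := by
  ext i j; simp [Tr1, Finset.sum_add_distrib]

lemma Tr1_sub (X Y : Matrix (Fin n × Fin n) (Fin n × Fin n) ℂ) : Tr1 (X - Y) = Tr1 X - Tr1 Y := by
  ext i j; simp [Tr1, Finset.sum_sub_distrib]

lemma RR_eq (B : Matrix (Fin n) (Fin n) ℂ) :
    RR B = B.trace • (1 : Matrix (Fin n) (Fin n) ℂ) - (n : ℂ) • B := by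
  rw [RR, DB, Tr1_sub, Tr1_kron, Tr1_kron, Matrix.trace_one, Fintype.card_fin]

lemma LL_eq (A B : Matrix (Fin n) (Fin n) ℂ) :
    LL A B = (A * B).trace • (1 : Matrix (Fin n) (Fin n) ℂ) - A.trace • B + B.trace • A
      - (n : ℂ) • (A * B) := by
  rw [LL, SA, DB, Matrix.add_mul, Matrix.mul_sub, Matrix.mul_sub, ← Matrix.mul_kronecker_mul,
    ← Matrix.mul_kronecker_mul, ← Matrix.mul_kronecker_mul, ← Matrix.mul_kronecker_mul]
  simp only [Tr1_add, Tr1_sub, Tr1_kron, Matrix.one_mul, Matrix.mul_one, Matrix.trace_one,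
    Fintype.card_fin]
  abel

lemma inner_self' (v : EuclideanSpace ℂ (Fin n)) : inner ℂ v v = ((‖v‖ ^ 2 : ℝ) : ℂ) := by
  rw [inner_self_eq_norm_sq_to_K]; push_cast; rfl

/-- The eigenbasis of `T* T`. -/
lemma exists_basis (X : Matrix (Fin n) (Fin n) ℂ) :
    ∃ b : OrthonormalBasis (Fin n) ℂ (EuclideanSpace ℂ (Fin n)),
      ∀ i : Fin n, ‖Matrix.toEuclideanLin X (b i)‖ = sv X i := by
  set T := Matrix.toEuclideanLin X with hT
  have hn : Module.finrank ℂ (EuclideanSpace ℂ (Fin n)) = n := finrank_euclideanSpace_fin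
  refine ⟨T.isSymmetric_adjoint_comp_self.eigenvectorBasis hn, fun i => ?_⟩
  set b := T.isSymmetric_adjoint_comp_self.eigenvectorBasis hn with hb
  have h1 : (LinearMap.adjoint T ∘ₗ T) (b i)
      = ((T.isSymmetric_adjoint_comp_self.eigenvalues hn i : ℝ) : ℂ) • b i :=
    T.isSymmetric_adjoint_comp_self.apply_eigenvectorBasis hn i
  have h2 : ‖T (b i)‖ ^ 2 = (sv X i) ^ 2 := by
    have e2 : inner ℂ (T (b i)) (T (b i)) = inner ℂ (b i) ((LinearMap.adjoint T ∘ₗ T) (b i)) := by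
      rw [LinearMap.comp_apply, LinearMap.adjoint_inner_right]
    rw [h1, inner_smul_right, inner_self', inner_self', b.norm_eq_one i] at e2
    have e3 : sv X i ^ 2 = T.isSymmetric_adjoint_comp_self.eigenvalues hn i :=
      T.sq_singularValues_fin hn i
    rw [e3]
    simp only [one_pow, Complex.ofReal_one, mul_one] at e2
    exact_mod_cast e2
  exact (sq_eq_sq₀ (norm_nonneg _) (T.singularValues_nonneg _)).1 h2

/-- Each singular value is at most a bound of the operator norm. -/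
lemma sv_le {X : Matrix (Fin n) (Fin n) ℂ} {c : ℝ} (hc : 0 ≤ c)
    (h : ∀ v, ‖Matrix.toEuclideanLin X v‖ ≤ c * ‖v‖) (i : ℕ) : sv X i ≤ c := by
  obtain ⟨b, hb⟩ := exists_basis X
  by_cases hi : i < n
  · rw [← hb ⟨i, hi⟩]
    have := h (b ⟨i, hi⟩)
    rwa [b.norm_eq_one, mul_one] at this
  · have : sv X i = 0 := (Matrix.toEuclideanLin X).singularValues_of_finrank_le
      (by rw [finrank_euclideanSpace_fin]; omega)
    rw [this]; exact hc

/-- The trace norm dominates `|Tr (W X)|` for contractions `W`. -/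
lemma trace_le {W X : Matrix (Fin n) (Fin n) ℂ}
    (hW : ∀ v, ‖Matrix.toEuclideanLin W v‖ ≤ ‖v‖) : ‖(W * X).trace‖ ≤ kyFan n X := by
  obtain ⟨b, hb⟩ := exists_basis X
  have h1 : (W * X).trace = LinearMap.trace ℂ _ (Matrix.toEuclideanLin (W * X)) := by
    rw [Matrix.toEuclideanLin_eq_toLin_orthonormal, Matrix.trace_toLin_eq]
  rw [h1, LinearMap.trace_eq_sum_inner _ b]
  have h2 : ∀ i, ‖inner ℂ (b i) (Matrix.toEuclideanLin (W * X) (b i))‖ ≤ sv X i := by
    intro i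
    refine (norm_inner_le_norm _ _).trans ?_
    rw [b.norm_eq_one, one_mul]
    have : Matrix.toEuclideanLin (W * X) (b i)
        = Matrix.toEuclideanLin W (Matrix.toEuclideanLin X (b i)) := by
      simp only [Matrix.toLpLin_apply, Matrix.mulVec_mulVec]
    rw [this]
    exact (hW _).trans (hb i).le
  refine (norm_sum_le _ _).trans ?_
  rw [kyFan, ← Fin.sum_univ_eq_sum_range]
  exact Finset.sum_le_sum fun i _ => h2 i

lemma norm_sq_lin (X : Matrix (Fin n) (Fin n) ℂ) (v : EuclideanSpace ℂ (Fin n)) :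
    ‖Matrix.toEuclideanLin X v‖ ^ 2 = ∑ i, ‖∑ j, X i j * v.ofLp j‖ ^ 2 := by
  rw [EuclideanSpace.norm_sq_eq]
  refine Finset.sum_congr rfl fun i _ => ?_
  rfl

/-- isometries from `Xᴴ X = 1` -/
lemma isom {X : Matrix (Fin n) (Fin n) ℂ} (h : Xᴴ * X = 1) (v : EuclideanSpace ℂ (Fin n)) :
    ‖Matrix.toEuclideanLin X v‖ = ‖v‖ := by
  have h2 : ‖Matrix.toEuclideanLin X v‖ ^ 2 = ‖v‖ ^ 2 := by
    have e2 : inner ℂ (Matrix.toEuclideanLin X v) (Matrix.toEuclideanLin X v)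
        = inner ℂ v (Matrix.toEuclideanLin Xᴴ (Matrix.toEuclideanLin X v)) := by
      rw [Matrix.toEuclideanLin_conjTranspose_eq_adjoint, LinearMap.adjoint_inner_right]
    have e3 : Matrix.toEuclideanLin Xᴴ (Matrix.toEuclideanLin X v) = v := by
      simp only [Matrix.toLpLin_apply, Matrix.mulVec_mulVec, h, Matrix.one_mulVec]
    rw [e3, inner_self', inner_self'] at e2
    exact_mod_cast e2
  exact (sq_eq_sq₀ (norm_nonneg _) (norm_nonneg _)).1 h2

end Pool.Agent.Q161.KF
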