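import Pool.Agent.Q161.KF.Basic

/-! The example in dimension `20`. -/

open Matrix Finset

namespace Pool.Agent.Q161.KF

/-- the unit vector -/
def aq (i : Fin 20) : ℚ := if i = 0 then 4 / 5 else if i = 2 then 3 / 5 else 0

/-- reflection -/
def Aq : Matrix (Fin 20) (Fin 20) ℚ :=
  Matrix.of fun i j => (if i = j then 1 else 0) - 2 * aq i * aq j

/-- difference of two projections -/
def Cq : Matrix (Fin 20) (Fin 20) ℚ :=
  Matrix.of fun i j => if i = 0 ∧ j = 0 then 1 / 2 else if i = 1 ∧ j = 1 then -1 / 2 else 0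

/-- `B = -C/20` -/
def Bq : Matrix (Fin 20) (Fin 20) ℚ := Matrix.of fun i j => -Cq i j / 20

/-- test isometry -/
def Wq : Matrix (Fin 20) (Fin 20) ℚ :=
  Matrix.of fun i j =>
    if i = j then (if i = 0 ∨ i = 2 then 3 / 5 else if i = 1 then -1 else 1)
    else if i = 0 ∧ j = 2 then -4 / 5 else if i = 2 ∧ j = 0 then 4 / 5 else 0

/-- the value of `L` -/
def Lq : Matrix (Fin 20) (Fin 20) ℚ :=
  Matrix.of fun i j => (Aq * Bq).trace * (if i = j then 1 else 0) - Aq.trace * Bq i j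
    + Bq.trace * Aq i j - 20 * (Aq * Bq) i j

lemma Aq_sq : Aqᵀ * Aq = 1 := by decide +kernel

lemma Aq_symm : Aqᵀ = Aq := by decide +kernel

lemma Bq_symm : Bqᵀ = Bq := by decide +kernel

lemma Wq_sq : Wqᵀ * Wq = 1 := by decide +kernel

lemma Bq_tr : Bq.trace = 0 := by decide +kernel

lemma WL_tr : (Wq * Lq).trace = 2 + 44 / 625 := by decide +kernel

end Pool.Agent.Q161.KF
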