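import Pool.Agent.Q161.KF.Ex

/-! The counterexample. -/

open Matrix Finset

namespace Pool.Agent.Q161.KF

/-- cast to complex matrices -/
noncomputable def cst (X : Matrix (Fin 20) (Fin 20) ℚ) : Matrix (Fin 20) (Fin 20) ℂ :=
  (Rat.castHom ℂ).mapMatrix X

lemma cst_apply (X : Matrix (Fin 20) (Fin 20) ℚ) (i j : Fin 20) : cst X i j = (X i j : ℂ) := rfl

lemma cst_mul (X Y : Matrix (Fin 20) (Fin 20) ℚ) : cst (X * Y) = cst X * cst Y :=
  map_mul _ _ _

lemma cst_trace (X : Matrix (Fin 20) (Fin 20) ℚ) : (cst X).trace = ((X.trace : ℚ) : ℂ) := by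
  simp [Matrix.trace, cst_apply]

lemma cst_conj (X : Matrix (Fin 20) (Fin 20) ℚ) : (cst X)ᴴ = cst Xᵀ := by
  ext i j
  simp [cst_apply, Matrix.conjTranspose_apply]

lemma cst_isom {X : Matrix (Fin 20) (Fin 20) ℚ} (h : Xᵀ * X = 1) : (cst X)ᴴ * cst X = 1 := by
  rw [cst_conj, ← cst_mul, h]
  exact map_one _

lemma LL_cst : LL (cst Aq) (cst Bq) = cst Lq := by
  rw [LL_eq, ← cst_mul, cst_trace, cst_trace, cst_trace]
  ext i j
  simp only [Matrix.sub_apply, Matrix.add_apply, Matrix.smul_apply, smul_eq_mul, cst_apply,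
    Matrix.one_apply, Lq, Matrix.of_apply]
  push_cast
  split_ifs <;> simp

lemma RR_cst : RR (cst Bq) = cst Cq := by
  rw [RR_eq, cst_trace, Bq_tr]
  ext i j
  simp only [Matrix.sub_apply, Matrix.smul_apply, smul_eq_mul, cst_apply, Bq, Matrix.of_apply]
  push_cast
  ring

lemma cst_C_apply (v : EuclideanSpace ℂ (Fin 20)) :
    Matrix.toEuclideanLin (cst Cq) v
      = (v.ofLp 0 / 2) • EuclideanSpace.single 0 (1:ℂ) + (-(v.ofLp 1) / 2) • EuclideanSpace.single 1 (1:ℂ) := by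
  ext i
  simp only [Matrix.toLpLin_apply, PiLp.add_apply, PiLp.smul_apply, EuclideanSpace.single_apply,
    smul_eq_mul, Matrix.mulVec, dotProduct, cst_apply, Cq, Matrix.of_apply]
  have e : ∀ j : Fin 20, (((if i = 0 ∧ j = 0 then (1:ℚ) / 2 else if i = 1 ∧ j = 1 then -1 / 2 else 0 : ℚ)) : ℂ)
      * v.ofLp j = (if j = 0 then (if i = 0 then v.ofLp j / 2 else 0) else 0)
        + (if j = 1 then (if i = 1 then -v.ofLp j / 2 else 0) else 0) := by
    intro j
    by_cases h0 : i = 0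
    · subst h0
      by_cases h1 : j = 0
      · subst h1; simp; ring
      · simp [h1]
    · by_cases h1 : i = 1
      · subst h1
        by_cases h2 : j = 1
        · subst h2; simp; ring
        · simp [h2]
      · simp [h0, h1]
  simp only [e, Finset.sum_add_distrib, Finset.sum_ite_eq', Finset.mem_univ, if_true]
  split_ifs <;> simp

lemma C_bound (v : EuclideanSpace ℂ (Fin 20)) :
    ‖Matrix.toEuclideanLin (cst Cq) v‖ ≤ 1 / 2 * ‖v‖ := by
  rw [cst_C_apply]
  have h1 : ‖(v.ofLp 0 / 2) • EuclideanSpace.single (0 : Fin 20) (1:ℂ)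
      + (-(v.ofLp 1) / 2) • EuclideanSpace.single (1 : Fin 20) (1:ℂ)‖ ^ 2 ≤ (1 / 2 * ‖v‖) ^ 2 := by
    have h2 : ‖(v.ofLp 0 / 2) • EuclideanSpace.single (0 : Fin 20) (1:ℂ)
      + (-(v.ofLp 1) / 2) • EuclideanSpace.single (1 : Fin 20) (1:ℂ)‖ ^ 2
        = ‖v.ofLp 0‖ ^ 2 / 4 + ‖v.ofLp 1‖ ^ 2 / 4 := by
      rw [EuclideanSpace.norm_sq_eq, Fin.sum_univ_succ, Fin.sum_univ_succ]
      have : ∀ k : Fin 18, ‖((v.ofLp 0 / 2) • EuclideanSpace.single (0 : Fin 20) (1:ℂ)
        + (-(v.ofLp 1) / 2) • EuclideanSpace.single (1 : Fin 20) (1:ℂ)).ofLp k.succ.succ‖ ^ 2 = 0 := by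
        intro k
        have k0 : k.succ.succ ≠ (0 : Fin 20) := Fin.succ_ne_zero _
        have k1 : k.succ.succ ≠ (1 : Fin 20) := by
          intro h
          have h' := congrArg Fin.val h
          simp at h'
        simp [EuclideanSpace.single_apply, k0, k1]
      rw [Finset.sum_eq_zero (fun k _ => this k)]
      have e1 : (Fin.succ 0 : Fin 20) = 1 := rfl
      rw [e1]
      simp only [PiLp.add_apply, PiLp.smul_apply, EuclideanSpace.single_apply, smul_eq_mul]
      simp only [if_true, zero_ne_one, one_ne_zero, if_false, mul_one, mul_zero, add_zero, zero_add,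
        norm_div, norm_neg]
      norm_num
      ring
    rw [h2, mul_pow, EuclideanSpace.norm_sq_eq, Fin.sum_univ_succ, Fin.sum_univ_succ]
    have e1 : (Fin.succ 0 : Fin 20) = 1 := rfl
    rw [e1]
    have : 0 ≤ ∑ i : Fin 18, ‖v.ofLp i.succ.succ‖ ^ 2 := Finset.sum_nonneg fun _ _ => by positivity
    nlinarith
  exact abs_le_of_sq_le_sq' h1 (by positivity) |>.2

lemma C_sv_zero (i : ℕ) (hi : 2 ≤ i) : sv (cst Cq) i = 0 := by
  rw [sv, LinearMap.singularValues_eq_zero_iff_le_finrank_range]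
  refine le_trans ?_ hi
  have hle : (Matrix.toEuclideanLin (cst Cq)).range
      ≤ Submodule.span ℂ ({EuclideanSpace.single (0 : Fin 20) (1:ℂ),
        EuclideanSpace.single (1 : Fin 20) (1:ℂ)} : Set (EuclideanSpace ℂ (Fin 20))) := by
    rintro _ ⟨v, rfl⟩
    rw [cst_C_apply]
    exact Submodule.add_mem _ (Submodule.smul_mem _ _ (Submodule.subset_span (by simp)))
      (Submodule.smul_mem _ _ (Submodule.subset_span (by simp)))
  refine (Submodule.finrank_mono hle).trans ?_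
  have := finrank_span_finset_le_card (R := ℂ)
    ({EuclideanSpace.single (0 : Fin 20) (1:ℂ), EuclideanSpace.single (1 : Fin 20) (1:ℂ)} :
      Finset (EuclideanSpace ℂ (Fin 20)))
  rw [Finset.coe_insert, Finset.coe_singleton] at this
  exact this.trans Finset.card_le_two

lemma kyFan_C : kyFan 20 (cst Cq) ≤ 1 := by
  unfold kyFan
  rw [← Finset.sum_range_add_sum_Ico _ (show 2 ≤ 20 by norm_num)]
  have h0 : ∑ k ∈ Finset.Ico 2 20, sv (cst Cq) k = 0 :=
    Finset.sum_eq_zero fun k hk => C_sv_zero k (Finset.mem_Ico.1 hk).1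
  rw [h0, add_zero, Finset.sum_range_succ, Finset.sum_range_one]
  have h1 := sv_le (by norm_num) C_bound 0
  have h2 := sv_le (by norm_num) C_bound 1
  linarith

lemma kyFan_L : 2 < kyFan 20 (cst Lq) := by
  have h := trace_le (W := cst Wq) (X := cst Lq) (fun v => (isom (cst_isom Wq_sq) v).le)
  rw [← cst_mul, cst_trace, WL_tr] at h
  refine lt_of_lt_of_le ?_ h
  have : (((2 + 44 / 625 : ℚ)) : ℂ) = (((2 + 44 / 625 : ℝ)) : ℂ) := by push_cast; norm_num
  rw [this, Complex.norm_real, Real.norm_eq_abs, abs_of_pos (by norm_num)]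
  norm_num

lemma sv_A (i : ℕ) : sv (cst Aq) i ≤ 1 :=
  sv_le zero_le_one (fun v => by rw [isom (cst_isom Aq_sq) v, one_mul]) i

lemma sv_nonneg {n : ℕ} (X : Matrix (Fin n) (Fin n) ℂ) (i : ℕ) : 0 ≤ sv X i :=
  (Matrix.toEuclideanLin X).singularValues_nonneg i

/-- The main facts. -/
theorem main : ∃ A B : Matrix (Fin 20) (Fin 20) ℂ, A.IsHermitian ∧ B.IsHermitian ∧
    (∀ i, sv A i ≤ 1) ∧ kyFan 20 (RR B) ≤ 1 ∧ 2 < kyFan 20 (LL A B) := by
  refine ⟨cst Aq, cst Bq, ?_, ?_, sv_A, ?_, ?_⟩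
  · rw [Matrix.IsHermitian, cst_conj, Aq_symm]
  · rw [Matrix.IsHermitian, cst_conj, Bq_symm]
  · rw [RR_cst]; exact kyFan_C
  · rw [LL_cst]; exact kyFan_L

end Pool.Agent.Q161.KF
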